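import Pool.Agent.H186.KS.Spec

set_option autoImplicit false

open Finset Filter

namespace Pool.Agent.H695.KS

open Pool.Agent.Y117.SG
open Pool.Agent.H186.KS

lemma Gf_nonneg (k r : ℕ) (w : ℝ) (hw : 0 ≤ w) : 0 ≤ Gf k r w := by
  unfold Gf
  apply mul_nonneg (by positivity)
  exact Finset.sum_nonneg (fun j _ => mul_nonneg (Nat.cast_nonneg _) (pow_nonneg hw j))

lemma wf_nonneg (n k : ℕ) (x : ℝ) (hkn : k < n) (hx : 0 ≤ x) : 0 ≤ wf n k x := by
  unfold wf
  have h1 : (0 : ℝ) < (n : ℝ) - k := by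
    have : (k : ℝ) < n := by exact_mod_cast hkn
    linarith
  have h2 : 0 ≤ Real.sqrt ((k : ℝ) / n) := Real.sqrt_nonneg _
  exact mul_nonneg (div_nonneg (Nat.cast_nonneg _) h1.le) (add_nonneg hx h2)

lemma abs_ys_le {n : ℕ} (α β : Fin n → Bool) : |ys α β| ≤ n := by
  unfold ys
  calc |∑ i, yy α β i| ≤ ∑ i, |yy α β i| := Finset.abs_sum_le_sum_abs _ _
    _ ≤ ∑ _i : Fin n, (1 : ℝ) := by
        apply Finset.sum_le_sum
        intro i _
        unfold yy
        split_ifs <;> simp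
    _ = n := by simp

lemma exp_bound (N v g : ℝ) (hN : 0 ≤ N) (h : |v| ≤ g) :
    (1 + N * v ^ 2) * Real.exp v ≤ (1 + N * g ^ 2) * Real.exp g := by
  have hv : v ≤ g := le_trans (le_abs_self v) h
  have hsq : v ^ 2 ≤ g ^ 2 := by
    rw [← sq_abs v]
    exact pow_le_pow_left₀ (abs_nonneg v) h 2
  have h1 : 1 + N * v ^ 2 ≤ 1 + N * g ^ 2 := by
    have := mul_le_mul_of_nonneg_left hsq hN
    linarith
  have h2 : Real.exp v ≤ Real.exp g := Real.exp_le_exp.mpr hv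
  have h3 : 0 ≤ 1 + N * g ^ 2 := by positivity
  exact mul_le_mul h1 h2 (Real.exp_pos _).le h3

theorem s_D (hkb : S_kb) (hdist : S_dist) (hbin : S_bin) (hpk : S_pk) (hsmall : S_small)
    (hlarge : S_large) : S_D := by
  intro ε hε0 hε1
  obtain ⟨k1, hk1⟩ := hlarge ε hε0 hε1
  obtain ⟨k2, hk2⟩ := hpk (1 / 10) (by norm_num)
  refine ⟨max 1 (max k1 k2), fun k hk => ?_⟩
  have hkpos : 0 < k := lt_of_lt_of_le one_pos (le_trans (le_max_left _ _) hk)
  have hkk1 : k1 ≤ k := le_trans (le_trans (le_max_left _ _) (le_max_right _ _)) hk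
  have hkk2 : k2 ≤ k := le_trans (le_trans (le_max_right _ _) (le_max_right _ _)) hk
  have hpk10 : pk k 5 ≤ 1 / 10 := hk2 k hkk2
  refine ⟨by linarith, ?_⟩
  obtain ⟨B, n1, hB⟩ := hsmall ε k hε0 hε1 hpk10
  obtain ⟨n2, hn2⟩ := hk1 k hkk1
  set M : ℝ := max B 1 with hM
  have hM1 : 1 ≤ M := le_max_right _ _
  have hM0 : 0 < M := by linarith
  refine ⟨max (max n1 n2) (max (k + 1) ⌈64 * 4 ^ k * M⌉₊), fun n hn Q hQ hch => ?_⟩
  have hnn1 : n1 ≤ n := le_trans (le_trans (le_max_left _ _) (le_max_left _ _)) hn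
  have hnn2 : n2 ≤ n := le_trans (le_trans (le_max_right _ _) (le_max_left _ _)) hn
  have hkn : k < n := lt_of_lt_of_le (Nat.lt_succ_self k)
    (le_trans (le_trans (le_max_left _ _) (le_max_right _ _)) hn)
  have hnc : 64 * 4 ^ k * M ≤ (n : ℝ) := by
    have h : ⌈64 * 4 ^ k * M⌉₊ ≤ n := le_trans (le_trans (le_max_right _ _) (le_max_right _ _)) hn
    exact le_trans (Nat.le_ceil _) (by exact_mod_cast h)
  have hn0 : 0 < n := lt_trans hkpos hkn
  have hnR : (0 : ℝ) < n := by exact_mod_cast hn0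
  -- the bound function
  let E : ℝ → ℝ := fun x => (1 + (n : ℝ) ^ 4 * gf ε n k x ^ 2) * Real.exp (gf ε n k x)
  have hE0 : ∀ x, 0 ≤ E x := by
    intro x
    have : 0 ≤ 1 + (n : ℝ) ^ 4 * gf ε n k x ^ 2 := by positivity
    exact mul_nonneg this (Real.exp_pos _).le
  have hpt : ∀ α β : Fin n → Bool,
      (1 + (n : ℝ) ^ 4 * (Kr (ac k 5) (board n k) α β / Q) ^ 2) *
        Real.exp (Kr (ac k 5) (board n k) α β / Q) ≤ E (|ys α β| / n) := by
    intro α β
    apply exp_bound _ _ _ (by positivity)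
    have hk' := hkb n k 5 α β hkpos hkn (by linarith)
    have hx : 0 ≤ |ys α β| / (n : ℝ) := div_nonneg (abs_nonneg _) hnR.le
    have hG := Gf_nonneg k 5 (wf n k (|ys α β| / n)) (wf_nonneg n k _ hkn hx)
    have hP : 0 ≤ ((1 - pk k 5) ^ 2)⁻¹ := by positivity
    rw [abs_div, abs_of_pos hQ, div_le_iff₀ hQ]
    refine le_trans hk' ?_
    unfold gf
    have := mul_le_mul_of_nonneg_right hch (mul_nonneg hP hG)
    calc (n.choose k : ℝ) * (((1 - pk k 5) ^ 2)⁻¹ * Gf k 5 (wf n k (|ys α β| / n)))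
        ≤ (1 - ε) * Real.log 2 * n * Q *
          (((1 - pk k 5) ^ 2)⁻¹ * Gf k 5 (wf n k (|ys α β| / n))) := this
      _ = _ := by ring
  have hterm : ∀ m ∈ range (n + 1), (n.choose m : ℝ) * E (|2 * (m : ℝ) - n| / n) ≤ 2 ^ n * M := by
    intro m hm
    have hmn : m ≤ n := Nat.lt_succ_iff.mp (mem_range.mp hm)
    obtain ⟨hb1, hb2⟩ := hbin n m hn0 hmn
    have h2n : (0 : ℝ) < 2 ^ n := by positivity
    have hmR : (m : ℝ) ≤ n := by exact_mod_cast hmn
    have hm0 : (0 : ℝ) ≤ m := Nat.cast_nonneg m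
    have hx0 : 0 ≤ |2 * (m : ℝ) - n| / n := div_nonneg (abs_nonneg _) hnR.le
    have hx1 : |2 * (m : ℝ) - n| / n ≤ 1 := by
      rw [div_le_one hnR, abs_le]
      constructor <;> linarith
    have key : (n.choose m : ℝ) / 2 ^ n * E (|2 * (m : ℝ) - n| / n) ≤ M := by
      rcases le_total (|2 * (m : ℝ) - n| / n) (1 / 5) with h5 | h5
      · refine le_trans (mul_le_mul_of_nonneg_right hb1 (hE0 _)) ?_
        exact le_trans (hB n hnn1 _ hx0 h5) (le_max_left _ _)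
      · have hb0 : 0 ≤ (n.choose m : ℝ) / 2 ^ n := div_nonneg (Nat.cast_nonneg _) h2n.le
        exact le_trans (hn2 n hnn2 _ _ h5 hx1 hb0 hb1 hb2) hM1
    have h3 : (n.choose m : ℝ) * E (|2 * (m : ℝ) - n| / n) =
        2 ^ n * ((n.choose m : ℝ) / 2 ^ n * E (|2 * (m : ℝ) - n| / n)) := by
      field_simp
    rw [h3]
    exact mul_le_mul_of_nonneg_left key h2n.le
  calc ∑ α : Fin n → Bool, ∑ β : Fin n → Bool,
      (1 + (n : ℝ) ^ 4 * (Kr (ac k 5) (board n k) α β / Q) ^ 2) *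
        Real.exp (Kr (ac k 5) (board n k) α β / Q)
      ≤ ∑ α : Fin n → Bool, ∑ β : Fin n → Bool, (fun s : ℝ => E (|s| / n)) (ys α β) :=
        Finset.sum_le_sum (fun α _ => Finset.sum_le_sum (fun β _ => hpt α β))
    _ = 2 ^ n * ∑ m ∈ range (n + 1), (n.choose m : ℝ) * (fun s : ℝ => E (|s| / n)) (2 * m - n) :=
        hdist n (fun s : ℝ => E (|s| / n))
    _ ≤ 2 ^ n * ∑ _m ∈ range (n + 1), 2 ^ n * M := by
        apply mul_le_mul_of_nonneg_left _ (by positivity)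
        exact Finset.sum_le_sum (fun m hm => hterm m hm)
    _ = ((n : ℝ) + 1) * M * ((2 : ℝ) ^ n) ^ 2 := by
        rw [Finset.sum_const, card_range, nsmul_eq_mul]
        push_cast
        ring
    _ ≤ (n : ℝ) ^ 2 / (32 * 4 ^ k) * ((2 : ℝ) ^ n) ^ 2 := by
        apply mul_le_mul_of_nonneg_right _ (by positivity)
        rw [le_div_iff₀ (by positivity)]
        have h1 : (1 : ℝ) ≤ n := by exact_mod_cast hn0
        have h4 : (0 : ℝ) < 4 ^ k := by positivity
        have h5 : ((n : ℝ) + 1) * M * (32 * 4 ^ k) ≤ (2 * n) * M * (32 * 4 ^ k) := by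
          apply mul_le_mul_of_nonneg_right _ (by positivity)
          apply mul_le_mul_of_nonneg_right _ hM0.le
          linarith
        have h6 : (2 * (n : ℝ)) * M * (32 * 4 ^ k) = (n : ℝ) * (64 * 4 ^ k * M) := by ring
        rw [h6] at h5
        have h7 : (n : ℝ) * (64 * 4 ^ k * M) ≤ n * n := mul_le_mul_of_nonneg_left hnc hnR.le
        nlinarith

end Pool.Agent.H695.KS
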